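import Pool.Agent.L7h49.PM.Def2
import Pool.Agent.L7h66.PM.Mon

set_option autoImplicit false

/-! Project PM, second half, part XING: disjoint crossing geodesics beyond every vertical line. -/

namespace Pool.Agent.L7h69.PM

open Pool.Agent.L7h49.PM Pool.Agent.L7h66.PM

lemma pt_zero_apply (a b : ℝ) : (pt a b) 0 = a := by simp [pt]

lemma pt_one_apply (a b : ℝ) : (pt a b) 1 = b := by simp [pt]

lemma pt_add (a b c d : ℝ) : pt a b + pt c d = pt (a + c) (b + d) := by
  ext i
  fin_cases i
  · simp [pt]
  · simp [pt]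

lemma rough_sub {V : Type} {G : SimpleGraph V} {f : V → E2} {C : ℝ} (hR : Rough G f C) (q : E2) :
    Rough G (fun v => f v - q) C where
  one := hR.one
  conn := hR.conn
  near := fun x y => by
    have h := hR.near x y
    have e : f x - q - (f y - q) = f x - f y := by abel
    show |‖f x - q - (f y - q)‖ - (G.dist x y : ℝ)| < C
    rw [e]
    exact h
  net := fun p => by
    obtain ⟨x, hx⟩ := hR.net (p + q)
    refine ⟨x, ?_⟩
    have e : f x - q - p = f x - (p + q) := by abel
    show ‖f x - q - p‖ < C
    rw [e]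
    exact hx

theorem s_XING (hB : S_BUSQ) (hG2 : S_RG2) : S_XING := by
  intro V G f C hR R W
  have hR' := rough_sub hR (pt R W)
  have hC := hR.one
  obtain ⟨L, y0, y1, t0, t1, a, b, c, d, hM, hy0, hy, hy1, ht0, ht, ht1, ha, hb, hc, hd, hlt⟩ :=
    hB V G (fun v => f v - pt R W) C hR' (10000 * C)
  obtain ⟨p, hp⟩ := hR.conn.exists_walk_length_eq_dist a c
  obtain ⟨q, hq⟩ := hR.conn.exists_walk_length_eq_dist b d
  have tr : ∀ (v : V) (x y : ℝ), f v - pt (R + x) (W + y) = f v - pt R W - pt x y := by
    intro v x y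
    rw [← pt_add]
    abel
  have tr0 : ∀ (v : V) (y : ℝ), f v - pt R (W + y) = f v - pt R W - pt 0 y := by
    intro v y
    rw [← tr, add_zero]
  have co0 : ∀ v : V, (f v - pt R W) 0 = f v 0 - R := by
    intro v
    rw [PiLp.sub_apply, pt_zero_apply]
  have co1 : ∀ v : V, (f v - pt R W) 1 = f v 1 - W := by
    intro v
    rw [PiLp.sub_apply, pt_one_apply]
  refine ⟨L, y0, y1, t0, t1, a, b, c, d, {v | v ∈ p.support}, {v | v ∈ q.support}, ?_⟩
  refine ⟨by linarith, hy0, hy, by linarith, ht, ?_, ?_, ?_, ?_, p.start_mem_support,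
    p.end_mem_support, q.start_mem_support, q.end_mem_support, p.connected_induce_support,
    q.connected_induce_support, ?_, ?_, ?_⟩
  · rw [tr0]
    exact ha
  · rw [tr0]
    exact hb
  · rw [tr]
    exact hc
  · rw [tr]
    exact hd
  · rw [Set.disjoint_left]
    intro w h1 h2
    have e1 := dist_split p hp h1
    have e2 := dist_split q hq h2
    have e3 := hR.conn.dist_triangle (u := a) (v := w) (w := d)
    have e4 := hR.conn.dist_triangle (u := b) (v := w) (w := c)
    omega
  · intro w hw
    have h := hG2 L C y0 t1 (f a - pt R W) (f c - pt R W) (f w - pt R W) hC hM hy0 (by linarith)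
      (by linarith) ht1 ha hc (ell hR' p hp w hw)
    rw [co0, co1] at h
    exact h
  · intro w hw
    have h := hG2 L C y1 t0 (f b - pt R W) (f d - pt R W) (f w - pt R W) hC hM (by linarith) hy1
      ht0 (by linarith) hb hd (ell hR' q hq w hw)
    rw [co0, co1] at h
    exact h

end Pool.Agent.L7h69.PM
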